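import Mathlib

set_option autoImplicit false

namespace Pool.Agent.Results.MP_48c274_ag.NotLex

open MvPolynomial

/-- Coordinates of the affine space `𝔸^N`: pairs `(i, m)` with `m` a monomial of degree `d i`. -/
abbrev Coef (n s : ℕ) (d : Fin s → ℕ) : Type :=
  Σ i : Fin s, ↥((Finset.univ : Finset (Fin n)).finsuppAntidiag (d i))

/-- The form `f_i` of degree `d i` with coefficients read from the point `a`. -/
noncomputable def form {k : Type*} [Field k] {n s : ℕ} {d : Fin s → ℕ} (a : Coef n s d → k)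
    (i : Fin s) : MvPolynomial (Fin n) k :=
  ∑ m : ↥((Finset.univ : Finset (Fin n)).finsuppAntidiag (d i)), monomial m.1 (a ⟨i, m⟩)

/-- The lex initial ideal (with `x_0 ≻ x_1 ≻ ⋯`). -/
noncomputable def initial {k : Type*} [Field k] {n : ℕ} (I : Ideal (MvPolynomial (Fin n) k)) :
    Ideal (MvPolynomial (Fin n) k) :=
  Ideal.span {p | ∃ f ∈ I, f ≠ 0 ∧ p = monomial (MonomialOrder.lex.degree f) 1}

/-- Lexsegment property of a monomial ideal. -/
def IsLexsegment {k : Type*} [Field k] {n : ℕ} (L : Ideal (MvPolynomial (Fin n) k)) : Prop :=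
  ∀ u v : Fin n →₀ ℕ, u.degree = v.degree → monomial u (1 : k) ∈ L → toLex u < toLex v →
    monomial v (1 : k) ∈ L

section
variable {k : Type*} [Field k]

theorem mem_anti {n e : ℕ} (m : Fin n →₀ ℕ) :
    m ∈ (Finset.univ : Finset (Fin n)).finsuppAntidiag e ↔ m.degree = e := by
  simp [Finsupp.degree_eq_sum]

theorem form_hom {n s : ℕ} {d : Fin s → ℕ} (a : Coef n s d → k) (i : Fin s) :
    (form a i).IsHomogeneous (d i) :=
  IsHomogeneous.sum _ _ _ fun m _ => isHomogeneous_monomial _ ((mem_anti _).mp m.2)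

theorem coeff_form {n s : ℕ} {d : Fin s → ℕ} (a : Coef n s d → k) (i : Fin s)
    (m : ↥((Finset.univ : Finset (Fin n)).finsuppAntidiag (d i))) :
    coeff m.1 (form a i) = a ⟨i, m⟩ := by
  rw [form, coeff_sum, Finset.sum_eq_single m]
  · simp
  · intro b _ hb
    rw [coeff_monomial, if_neg fun h => hb (Subtype.ext h)]
  · simp

theorem lin_indep {n : ℕ} {ι : Type*} (v : ι → Fin n →₀ ℕ) (hv : Function.Injective v)
    (g : ι → MvPolynomial (Fin n) k) (h1 : ∀ i, coeff (v i) (g i) ≠ 0)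
    (h2 : ∀ i w, coeff w (g i) ≠ 0 → toLex w ≤ toLex (v i)) : LinearIndependent k g := by
  classical
  rw [linearIndependent_iff']
  intro s c hs
  by_contra hn
  push Not at hn
  obtain ⟨i, hi, hmax⟩ := Finset.exists_max_image (s.filter fun i => c i ≠ 0)
    (fun i => toLex (v i)) (by obtain ⟨i, h, h'⟩ := hn; exact ⟨i, by simp [h, h']⟩)
  rw [Finset.mem_filter] at hi
  have := congrArg (coeff (v i)) hs
  rw [coeff_sum, Finset.sum_eq_single i] at this
  · simp [hi.2, h1 i] at this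
  · intro j hj hji
    by_contra hc
    rw [coeff_smul, smul_eq_mul] at hc
    have a1 := hmax j (by simp [hj, left_ne_zero_of_mul hc])
    have a2 := h2 j _ (right_ne_zero_of_mul hc)
    exact hji (hv (toLex.injective (le_antisymm a1 a2)))
  · exact fun h => absurd hi.1 h

theorem eval_hom {n e : ℕ} {q : MvPolynomial (Fin (n + 1)) k} (hq : q.IsHomogeneous e) :
    eval (Pi.single 0 1) q = coeff (Finsupp.single 0 e) q := by
  rw [eval_eq', Finset.sum_eq_single (Finsupp.single 0 e)]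
  · rw [Fin.prod_univ_succ]; simp
  · intro m hm hne
    have hd : m.degree = e := by
      rw [Finsupp.degree_eq_weight_one]; exact hq (mem_support_iff.mp hm)
    have : ∃ i : Fin n, m i.succ ≠ 0 := by
      by_contra h0
      push Not at h0
      apply hne
      rw [Finsupp.degree_eq_sum, Fin.sum_univ_succ] at hd
      ext j
      refine Fin.cases ?_ (fun i => ?_) j
      · simpa [h0] using hd
      · simp [h0]
    obtain ⟨i, hi⟩ := this
    rw [Finset.prod_eq_zero (Finset.mem_univ i.succ) (by simp [hi]), mul_zero]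
  · intro h; rw [notMem_support_iff.mp h, zero_mul]

theorem expand {f : MvPolynomial (Fin 4) k} (hf : f.IsHomogeneous 2) :
    finSuccEquiv k 3 f = Polynomial.C ((finSuccEquiv k 3 f).coeff 2) * Polynomial.X ^ 2 +
      Polynomial.C ((finSuccEquiv k 3 f).coeff 1) * Polynomial.X +
      Polynomial.C ((finSuccEquiv k 3 f).coeff 0) := by
  have h : (finSuccEquiv k 3 f).natDegree < 3 := by
    rw [natDegree_finSuccEquiv]
    have := (degreeOf_le_totalDegree f 0).trans hf.totalDegree_le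
    omega
  conv_lhs => rw [(finSuccEquiv k 3 f).as_sum_range_C_mul_X_pow' h]
  simp [Finset.sum_range_succ]; ring

theorem exists_elim {f₁ f₂ : MvPolynomial (Fin 4) k} (h₁ : f₁.IsHomogeneous 2)
    (h₂ : f₂.IsHomogeneous 2) (α β γ : Fin 4 →₀ ℕ) (hα : α = Finsupp.cons 2 (Finsupp.single 0 0))
    (hβ : β = Finsupp.cons 1 (Finsupp.single 0 1)) (hγ : γ = Finsupp.cons 0 (Finsupp.single 0 2))
    (hne : (coeff α f₁ * coeff γ f₂ - coeff α f₂ * coeff γ f₁) ^ 2 -
      (coeff α f₁ * coeff β f₂ - coeff α f₂ * coeff β f₁) *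
        (coeff β f₁ * coeff γ f₂ - coeff β f₂ * coeff γ f₁) ≠ 0) :
    ∃ p q : MvPolynomial (Fin 4) k, p * f₁ + q * f₂ ≠ 0 ∧
      ∀ u ∈ (p * f₁ + q * f₂).support, u 0 = 0 ∧ u.degree = 4 := by
  obtain ⟨a1, ea1⟩ : ∃ x, x = (finSuccEquiv k 3 f₁).coeff 2 := ⟨_, rfl⟩
  obtain ⟨b1, eb1⟩ : ∃ x, x = (finSuccEquiv k 3 f₁).coeff 1 := ⟨_, rfl⟩
  obtain ⟨c1, ec1⟩ : ∃ x, x = (finSuccEquiv k 3 f₁).coeff 0 := ⟨_, rfl⟩
  obtain ⟨a2, ea2⟩ : ∃ x, x = (finSuccEquiv k 3 f₂).coeff 2 := ⟨_, rfl⟩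
  obtain ⟨b2, eb2⟩ : ∃ x, x = (finSuccEquiv k 3 f₂).coeff 1 := ⟨_, rfl⟩
  obtain ⟨c2, ec2⟩ : ∃ x, x = (finSuccEquiv k 3 f₂).coeff 0 := ⟨_, rfl⟩
  have ha1 : a1.IsHomogeneous 0 := ea1 ▸ h₁.finSuccEquiv_coeff_isHomogeneous 2 0 rfl
  have hb1 : b1.IsHomogeneous 1 := eb1 ▸ h₁.finSuccEquiv_coeff_isHomogeneous 1 1 rfl
  have hc1 : c1.IsHomogeneous 2 := ec1 ▸ h₁.finSuccEquiv_coeff_isHomogeneous 0 2 rfl
  have ha2 : a2.IsHomogeneous 0 := ea2 ▸ h₂.finSuccEquiv_coeff_isHomogeneous 2 0 rfl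
  have hb2 : b2.IsHomogeneous 1 := eb2 ▸ h₂.finSuccEquiv_coeff_isHomogeneous 1 1 rfl
  have hc2 : c2.IsHomogeneous 2 := ec2 ▸ h₂.finSuccEquiv_coeff_isHomogeneous 0 2 rfl
  have e1 := expand h₁
  have e2 := expand h₂
  rw [← ea1, ← eb1, ← ec1] at e1
  rw [← ea2, ← eb2, ← ec2] at e2
  obtain ⟨R, hR⟩ : ∃ R, R = (a1 * c2 - a2 * c1) * (a1 * c2 - a2 * c1) -
    (a1 * b2 - a2 * b1) * (b1 * c2 - b2 * c1) := ⟨_, rfl⟩
  have hRh : R.IsHomogeneous 4 := by
    rw [hR]
    exact (((ha1.mul hc2).sub (ha2.mul hc1)).mul ((ha1.mul hc2).sub (ha2.mul hc1))).sub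
      (((ha1.mul hb2).sub (ha2.mul hb1)).mul ((hb1.mul hc2).sub (hb2.mul hc1)))
  have hR0 : R ≠ 0 := by
    intro h0
    apply hne
    have := congrArg (eval (Pi.single 0 1)) (hR.symm.trans h0)
    simp only [map_sub, map_mul, map_zero, eval_hom ha1, eval_hom hb1, eval_hom hc1, eval_hom ha2,
      eval_hom hb2, eval_hom hc2] at this
    simp only [ea1, eb1, ec1, ea2, eb2, ec2, finSuccEquiv_coeff_coeff, ← hα, ← hβ, ← hγ] at this
    rw [sq]; exact this
  obtain ⟨p, hp⟩ := (finSuccEquiv k 3).surjective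
    (-Polynomial.C (a1 * c2 - a2 * c1) * Polynomial.C a2 + Polynomial.C (a1 * b2 - a2 * b1) *
      (Polynomial.C a2 * Polynomial.X + Polynomial.C b2))
  obtain ⟨q, hq⟩ := (finSuccEquiv k 3).surjective
    (Polynomial.C (a1 * c2 - a2 * c1) * Polynomial.C a1 - Polynomial.C (a1 * b2 - a2 * b1) *
      (Polynomial.C a1 * Polynomial.X + Polynomial.C b1))
  have key : finSuccEquiv k 3 (p * f₁ + q * f₂) = Polynomial.C R := by
    rw [map_add, map_mul, map_mul, hp, hq, e1, e2, hR]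
    simp only [map_sub, map_mul]
    ring
  refine ⟨p, q, fun h0 => hR0 ?_, fun u hu => ?_⟩
  · rw [h0, map_zero] at key
    exact Polynomial.C_eq_zero.mp key.symm
  · rw [mem_support_iff, ← Finsupp.cons_tail u, ← finSuccEquiv_coeff_coeff, key,
      Polynomial.coeff_C] at hu
    by_cases h0 : u 0 = 0
    · rw [if_pos h0] at hu
      have hd : (Finsupp.tail u).degree = 4 := by
        rw [Finsupp.degree_eq_weight_one]; exact hRh hu
      refine ⟨h0, ?_⟩
      rw [Finsupp.degree_eq_sum] at hd ⊢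
      rw [Fin.sum_univ_succ, h0, zero_add]
      exact hd
    · simp [h0] at hu

theorem comp_mem {f : MvPolynomial (Fin 4) k} {e : ℕ} (hf : f.IsHomogeneous e)
    (W : Submodule k (MvPolynomial (Fin 4) k))
    (hW : ∀ m : Fin 4 →₀ ℕ, m.degree + e = 4 → monomial m 1 * f ∈ W)
    (p : MvPolynomial (Fin 4) k) : homogeneousComponent 4 (p * f) ∈ W := by
  induction p using MvPolynomial.induction_on' with
  | add p q hp hq => rw [add_mul, map_add]; exact W.add_mem hp hq
  | monomial m c =>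
    have : (monomial m c * f).IsHomogeneous (m.degree + e) :=
      (isHomogeneous_monomial _ rfl).mul hf
    rw [homogeneousComponent_of_mem this]
    split_ifs with h
    · have e : monomial m c * f = c • (monomial m 1 * f) := by
        rw [← smul_mul_assoc, smul_monomial, smul_eq_mul, mul_one]
      rw [e]; exact W.smul_mem _ (hW m h.symm)
    · exact W.zero_mem

theorem lead_of_mem {n : ℕ} {I : Ideal (MvPolynomial (Fin n) k)} {v : Fin n →₀ ℕ}
    (h : monomial v (1 : k) ∈ initial I) :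
    ∃ g ∈ I, g ≠ 0 ∧ MonomialOrder.lex.degree g = v := by
  have e : {p | ∃ f ∈ I, f ≠ 0 ∧ p = monomial (MonomialOrder.lex.degree f) (1 : k)} =
      (fun s => monomial s (1 : k)) '' {s | ∃ f ∈ I, f ≠ 0 ∧ MonomialOrder.lex.degree f = s} := by
    ext p
    constructor
    · rintro ⟨f, h1, h2, rfl⟩; exact ⟨_, ⟨f, h1, h2, rfl⟩, rfl⟩
    · rintro ⟨_, ⟨f, h1, h2, rfl⟩, rfl⟩; exact ⟨f, h1, h2, rfl⟩
  rw [initial, e, mem_ideal_span_monomial_image] at h
  obtain ⟨_, ⟨f, h1, h2, rfl⟩, hle⟩ := h v (by simp)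
  have h3 : (monomial (v - MonomialOrder.lex.degree f) (1 : k)) ≠ 0 := by simp
  refine ⟨monomial (v - MonomialOrder.lex.degree f) 1 * f, I.mul_mem_left _ h1,
    mul_ne_zero h3 h2, ?_⟩
  classical
  rw [MonomialOrder.degree_mul h3 h2, MonomialOrder.degree_monomial, if_neg one_ne_zero,
    tsub_add_cancel_of_le hle]

theorem core {e : ℕ} (he : 5 ≤ e) (f : Fin 3 → MvPolynomial (Fin 4) k)
    (h0 : (f 0).IsHomogeneous 2) (h1 : (f 1).IsHomogeneous 2) (h2 : (f 2).IsHomogeneous e)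
    (g : MvPolynomial (Fin 4) k) (hg : g ∈ Ideal.span (Set.range f)) (hg0 : g ≠ 0)
    (hs : ∀ u ∈ g.support, u 0 = 0 ∧ u.degree = 4) :
    ¬ IsLexsegment (initial (Ideal.span (Set.range f))) := by
  intro hL
  obtain ⟨u, hu⟩ : ∃ u, u = MonomialOrder.lex.degree g := ⟨_, rfl⟩
  obtain ⟨u0, u4⟩ := hs u (hu ▸ MonomialOrder.degree_mem_support hg0)
  have huI : monomial u (1 : k) ∈ initial (Ideal.span (Set.range f)) :=
    Ideal.subset_span ⟨g, hg, hg0, by rw [hu]⟩
  let A2 := ↥((Finset.univ : Finset (Fin 4)).finsuppAntidiag 2)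
  let A3 := ↥((Finset.univ : Finset (Fin 4)).finsuppAntidiag 3)
  let v : Option A3 → Fin 4 →₀ ℕ := fun o => o.elim u fun m => m.1 + Finsupp.single 0 1
  have hv4 : ∀ o, (v o).degree = 4 := by
    rintro (_ | m)
    · exact u4
    · simp only [v, Option.elim, map_add, (mem_anti _).mp m.2, Finsupp.degree_single]
  have hvinj : Function.Injective v := by
    rintro (_ | m) (_ | m') h
    · rfl
    · have := DFunLike.congr_fun h 0; simp [v, u0] at this
    · have := DFunLike.congr_fun h 0; simp [v, u0] at this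
    · exact congrArg some (Subtype.ext (add_right_cancel h))
  have hvI : ∀ o, monomial (v o) (1 : k) ∈ initial (Ideal.span (Set.range f)) := by
    rintro (_ | m)
    · exact huI
    · refine hL u _ (u4.trans (hv4 _).symm) huI ⟨0, fun j hj => absurd hj (by simp), ?_⟩
      simp [v, u0]
  choose G hG using fun o => lead_of_mem (hvI o)
  let b : A2 ⊕ A2 → MvPolynomial (Fin 4) k :=
    Sum.elim (fun m => monomial m.1 1 * f 0) (fun m => monomial m.1 1 * f 1)
  let W := Submodule.span k (Set.range b)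
  have hW : ∀ o, homogeneousComponent 4 (G o) ∈ W := by
    intro o
    obtain ⟨p, hp⟩ := Ideal.mem_span_range_iff_exists_fun.mp (hG o).1
    rw [← hp, Fin.sum_univ_three, map_add, map_add]
    refine W.add_mem (W.add_mem (comp_mem h0 W (fun m hm => ?_) _)
      (comp_mem h1 W (fun m hm => ?_) _)) (comp_mem h2 W (fun m hm => by omega) _)
    · exact Submodule.subset_span ⟨Sum.inl ⟨m, (mem_anti _).mpr (by omega)⟩, rfl⟩
    · exact Submodule.subset_span ⟨Sum.inr ⟨m, (mem_anti _).mpr (by omega)⟩, rfl⟩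
  have hli : LinearIndependent k fun o => homogeneousComponent 4 (G o) := by
    refine lin_indep v hvinj _ (fun o => ?_) fun o w hw => ?_
    · rw [coeff_homogeneousComponent, if_pos (hv4 o), ← (hG o).2.2]
      exact MonomialOrder.coeff_degree_ne_zero_iff.mpr (hG o).2.1
    · rw [coeff_homogeneousComponent] at hw
      split_ifs at hw with h
      · rw [← (hG o).2.2]
        exact MonomialOrder.le_degree (m := MonomialOrder.lex) (mem_support_iff.mpr hw)
      · exact absurd rfl hw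
  have hli' : LinearIndependent k fun o => (⟨_, hW o⟩ : W) :=
    LinearIndependent.of_comp W.subtype hli
  have : Module.Finite k W := Module.Finite.span_of_finite k (Set.finite_range b)
  have c1 := hli'.fintype_card_le_finrank
  have c2 : Module.finrank k W ≤ Fintype.card (A2 ⊕ A2) := finrank_range_le_card b
  have c3 : Fintype.card A2 = 10 := by
    rw [Fintype.card_coe, Finset.card_finsuppAntidiag_nat_eq_choose]; rfl
  have c4 : Fintype.card A3 = 20 := by
    rw [Fintype.card_coe, Finset.card_finsuppAntidiag_nat_eq_choose]; rfl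
  rw [Fintype.card_sum, c3] at c2
  rw [Fintype.card_option, c4] at c1
  omega

end

/-- For `n = 4`, `s = 3` and degrees `(2, 2, e)` with `e ≥ 5`, the lex initial ideal of `I_a` is
not lexsegment for all `a` in a nonempty Zariski open set. -/
theorem result (k : Type*) [Field k] (e : ℕ) (he : 5 ≤ e) :
    ∃ h : MvPolynomial (Coef 4 3 ![2, 2, e]) k, h ≠ 0 ∧
      ∀ a : Coef 4 3 ![2, 2, e] → k, eval a h ≠ 0 →
        ¬ IsLexsegment (initial (Ideal.span (Set.range (form a)))) := by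
  classical
  obtain ⟨α, hα⟩ : ∃ α : Fin 4 →₀ ℕ, α = Finsupp.cons 2 (Finsupp.single 0 0) := ⟨_, rfl⟩
  obtain ⟨β, hβ⟩ : ∃ α : Fin 4 →₀ ℕ, α = Finsupp.cons 1 (Finsupp.single 0 1) := ⟨_, rfl⟩
  obtain ⟨γ, hγ⟩ : ∃ α : Fin 4 →₀ ℕ, α = Finsupp.cons 0 (Finsupp.single 0 2) := ⟨_, rfl⟩
  have mα : α ∈ (Finset.univ : Finset (Fin 4)).finsuppAntidiag 2 := by
    rw [mem_anti, Finsupp.degree_eq_sum, Fin.sum_univ_succ, hα]; simp
  have mβ : β ∈ (Finset.univ : Finset (Fin 4)).finsuppAntidiag 2 := by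
    rw [mem_anti, Finsupp.degree_eq_sum, Fin.sum_univ_succ, hβ]; simp
  have mγ : γ ∈ (Finset.univ : Finset (Fin 4)).finsuppAntidiag 2 := by
    rw [mem_anti, Finsupp.degree_eq_sum, Fin.sum_univ_succ, hγ]; simp
  let a1 : Coef 4 3 ![2, 2, e] := ⟨0, ⟨α, mα⟩⟩
  let b1 : Coef 4 3 ![2, 2, e] := ⟨0, ⟨β, mβ⟩⟩
  let c1 : Coef 4 3 ![2, 2, e] := ⟨0, ⟨γ, mγ⟩⟩
  let a2 : Coef 4 3 ![2, 2, e] := ⟨1, ⟨α, mα⟩⟩
  let b2 : Coef 4 3 ![2, 2, e] := ⟨1, ⟨β, mβ⟩⟩
  let c2 : Coef 4 3 ![2, 2, e] := ⟨1, ⟨γ, mγ⟩⟩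
  refine ⟨(X a1 * X c2 - X a2 * X c1) ^ 2 - (X a1 * X b2 - X a2 * X b1) *
    (X b1 * X c2 - X b2 * X c1), fun h0 => ?_, fun a ha => ?_⟩
  · have := congrArg (eval fun c : Coef 4 3 ![2, 2, e] =>
      if c.2.1 0 + 2 * c.1.val = 2 then (1 : k) else 0) h0
    simp [a1, b1, c1, a2, b2, c2, hα, hβ, hγ] at this
  · obtain ⟨p, q, h1, h2⟩ := exists_elim (f₁ := form a 0) (f₂ := form a 1) (form_hom a 0)
      (form_hom a 1) α β γ hα hβ hγ (by
        have e1 := coeff_form a 0 ⟨α, mα⟩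
        have e2 := coeff_form a 0 ⟨β, mβ⟩
        have e3 := coeff_form a 0 ⟨γ, mγ⟩
        have e4 := coeff_form a 1 ⟨α, mα⟩
        have e5 := coeff_form a 1 ⟨β, mβ⟩
        have e6 := coeff_form a 1 ⟨γ, mγ⟩
        simp only at e1 e2 e3 e4 e5 e6
        rw [e1, e2, e3, e4, e5, e6]
        simp only [map_sub, map_mul, map_pow, eval_X] at ha
        exact ha)
    exact core he (form a) (form_hom a 0) (form_hom a 1) (form_hom a 2) _
      (Ideal.add_mem _ (Ideal.mul_mem_left _ _ (Ideal.subset_span ⟨0, rfl⟩))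
        (Ideal.mul_mem_left _ _ (Ideal.subset_span ⟨1, rfl⟩))) h1 h2

end Pool.Agent.Results.MP_48c274_ag.NotLex
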